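import Mathlib

/-!
# Ramsey equivalence in two colours and in more colours

Let `H₁`, `H₂` be 2-equivalent. If no graph `G` with `G → (H₁)_2` has a red/blue colouring without a
red `H₁` and without a blue `H₂`, then `H₁` and `H₂` are `q`-equivalent for every `q ≥ 2`. The
condition holds whenever one of `H₁`, `H₂` is a subgraph of the other.
-/

open SimpleGraph

namespace Pool.Agent.Results.MP_781e3b_co.Comparable

/-- In the edge colouring `c` of `G` there is a copy of `H` all of whose edges have colour `i`. -/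
def Mono {V W : Type*} {q : ℕ} (G : SimpleGraph V) (c : Sym2 V → Fin q) (i : Fin q)
    (H : SimpleGraph W) : Prop :=
  ∃ f : W → V, Function.Injective f ∧ ∀ u v, H.Adj u v → G.Adj (f u) (f v) ∧ c s(f u, f v) = i

/-- `G → (H)_q`: every colouring of the edges of `G` with `q` colours contains a monochromatic
subgraph isomorphic to `H`. -/
def Arrows {V W : Type*} (G : SimpleGraph V) (H : SimpleGraph W) (q : ℕ) : Prop :=
  ∀ c : Sym2 V → Fin q, ∃ i, Mono G c i H

/-- `G → (H₁, H₂)`: every colouring of the edges of `G` with two colours contains a copy of `H₁` in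
the first colour or a copy of `H₂` in the second colour. -/
def ArrowsPair {V W₁ W₂ : Type*} (G : SimpleGraph V) (H₁ : SimpleGraph W₁)
    (H₂ : SimpleGraph W₂) : Prop :=
  ∀ c : Sym2 V → Fin 2, Mono G c 0 H₁ ∨ Mono G c 1 H₂

/-- `q`-equivalence: `G → (H₁)_q ↔ G → (H₂)_q` for every finite graph `G`. -/
def REquiv {W₁ W₂ : Type*} (q : ℕ) (H₁ : SimpleGraph W₁) (H₂ : SimpleGraph W₂) : Prop :=
  ∀ (n : ℕ) (G : SimpleGraph (Fin n)), Arrows G H₁ q ↔ Arrows G H₂ q

lemma Mono.of_contained {V W₁ W₂ : Type*} {q : ℕ} {G : SimpleGraph V} {c : Sym2 V → Fin q}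
    {i : Fin q} {H₁ : SimpleGraph W₁} {H₂ : SimpleGraph W₂} (h : H₁.IsContained H₂)
    (hm : Mono G c i H₂) : Mono G c i H₁ := by
  obtain ⟨φ⟩ := h
  obtain ⟨f, hf, hc⟩ := hm
  exact ⟨fun w => f (φ.toHom w), hf.comp φ.injective', fun u v huv =>
    hc _ _ (φ.toHom.map_adj huv)⟩

/-- The subgraph of `G` formed by the edges of two colours. -/
def pairGraph {V : Type*} {q : ℕ} (G : SimpleGraph V) (c : Sym2 V → Fin q) (i j : Fin q) :
    SimpleGraph V where
  Adj x y := G.Adj x y ∧ (c s(x, y) = i ∨ c s(x, y) = j)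
  symm := ⟨fun x y h => ⟨h.1.symm, by rw [Sym2.eq_swap]; exact h.2⟩⟩
  loopless := ⟨fun x h => h.1.ne rfl⟩

lemma not_arrowsPair {V W₁ W₂ : Type*} {q : ℕ} {H₁ : SimpleGraph W₁} {H₂ : SimpleGraph W₂}
    (G : SimpleGraph V) (c : Sym2 V → Fin q) {i j : Fin q}
    (hi : ¬ Mono G c i H₁) (hj : ¬ Mono G c j H₂) : ¬ ArrowsPair (pairGraph G c i j) H₁ H₂ := by
  classical
  intro hA
  rcases hA fun e => if c e = i then 0 else 1 with ⟨f, hf, hc⟩ | ⟨f, hf, hc⟩
  · apply hi
    refine ⟨f, hf, fun u v huv => ?_⟩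
    obtain ⟨h1, h3⟩ := hc u v huv
    refine ⟨h1.1, ?_⟩
    by_contra hne
    have h5 : (if c s(f u, f v) = i then (0 : Fin 2) else 1) = 0 := h3
    rw [if_neg hne] at h5
    exact absurd h5 (by decide)
  · apply hj
    refine ⟨f, hf, fun u v huv => ?_⟩
    obtain ⟨h1, h3⟩ := hc u v huv
    refine ⟨h1.1, ?_⟩
    rcases h1.2 with h4 | h4
    · have h5 : (if c s(f u, f v) = i then (0 : Fin 2) else 1) = 1 := h3
      rw [if_pos h4] at h5
      exact absurd h5 (by decide)
    · exact h4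

/-- Recolouring two colour classes. -/
lemma recolour {V W₂ : Type*} {q : ℕ} {H₂ : SimpleGraph W₂} (G : SimpleGraph V)
    (c : Sym2 V → Fin q) {i j : Fin q} (hij : i ≠ j) (h2 : ¬ Arrows (pairGraph G c i j) H₂ 2) :
    ∃ c' : Sym2 V → Fin q, ¬ Mono G c' i H₂ ∧ ¬ Mono G c' j H₂ ∧
      ∀ k, k ≠ i → k ≠ j → ∀ (W : Type) (H : SimpleGraph W), Mono G c' k H → Mono G c k H := by
  classical
  unfold Arrows at h2
  push Not at h2
  obtain ⟨d, hd⟩ := h2
  let c' : Sym2 V → Fin q := fun e =>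
    if c e = i ∨ c e = j then (if d e = 0 then i else j) else c e
  refine ⟨c', ?_, ?_, ?_⟩
  · rintro ⟨f, hf, hc⟩
    apply hd 0
    refine ⟨f, hf, fun u v huv => ?_⟩
    obtain ⟨h1, h3⟩ := hc u v huv
    simp only [c'] at h3
    by_cases h4 : c s(f u, f v) = i ∨ c s(f u, f v) = j
    · rw [if_pos h4] at h3
      refine ⟨⟨h1, h4⟩, ?_⟩
      by_contra hne
      rw [if_neg hne] at h3
      exact hij h3.symm
    · rw [if_neg h4] at h3
      exact absurd (Or.inl h3) h4
  · rintro ⟨f, hf, hc⟩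
    apply hd 1
    refine ⟨f, hf, fun u v huv => ?_⟩
    obtain ⟨h1, h3⟩ := hc u v huv
    simp only [c'] at h3
    by_cases h4 : c s(f u, f v) = i ∨ c s(f u, f v) = j
    · rw [if_pos h4] at h3
      refine ⟨⟨h1, h4⟩, ?_⟩
      by_cases h5 : d s(f u, f v) = 0
      · rw [if_pos h5] at h3
        exact absurd h3 hij
      · have : ∀ x : Fin 2, x ≠ 0 → x = 1 := by decide
        exact this _ h5
    · rw [if_neg h4] at h3
      exact absurd (Or.inr h3) h4
  · rintro k hki hkj W H ⟨f, hf, hc⟩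
    refine ⟨f, hf, fun u v huv => ?_⟩
    obtain ⟨h1, h3⟩ := hc u v huv
    refine ⟨h1, ?_⟩
    simp only [c'] at h3
    by_cases h4 : c s(f u, f v) = i ∨ c s(f u, f v) = j
    · rw [if_pos h4] at h3
      split_ifs at h3
      · exact absurd h3.symm hki
      · exact absurd h3.symm hkj
    · rwa [if_neg h4] at h3

/-- The asymmetric condition: every finite graph `G` with `G → (H₁)_2` satisfies
`G → (H₁, H₂)`. -/
def Asym {W₁ W₂ : Type*} (H₁ : SimpleGraph W₁) (H₂ : SimpleGraph W₂) : Prop :=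
  ∀ (n : ℕ) (G : SimpleGraph (Fin n)), Arrows G H₁ 2 → ArrowsPair G H₁ H₂

lemma not_arrows_two {V W : Type*} {H : SimpleGraph W} {G : SimpleGraph V}
    (h : ¬ ArrowsPair G H H) : ¬ Arrows G H 2 := by
  intro hA
  apply h
  intro c
  obtain ⟨i, hi⟩ := hA c
  by_cases h0 : i = 0
  · left; rwa [h0] at hi
  · right
    have : ∀ x : Fin 2, x ≠ 0 → x = 1 := by decide
    rwa [this i h0] at hi

lemma one_direction {a b : ℕ} {H₁ : SimpleGraph (Fin a)} {H₂ : SimpleGraph (Fin b)}
    (h2 : REquiv 2 H₁ H₂) (hA : Asym H₁ H₂) {q : ℕ} (hq : 2 ≤ q) (n : ℕ)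
    (G : SimpleGraph (Fin n)) (h : Arrows G H₂ q) : Arrows G H₁ q := by
  by_contra hcon
  unfold Arrows at hcon
  push Not at hcon
  obtain ⟨c₀, hc₀⟩ := hcon
  have key : ∀ k, 2 ≤ k → k ≤ q → ∃ c : Sym2 (Fin n) → Fin q,
      (∀ i : Fin q, (i : ℕ) < k → ¬ Mono G c i H₂) ∧
      ∀ i : Fin q, k ≤ (i : ℕ) → ¬ Mono G c i H₁ := by
    intro k hk
    induction k, hk using Nat.le_induction with
    | base =>
      intro _
      have hij : (⟨0, by omega⟩ : Fin q) ≠ ⟨1, by omega⟩ := by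
        rw [Ne, Fin.mk.injEq]
        omega
      have h3 := not_arrows_two (not_arrowsPair G c₀ (hc₀ ⟨0, by omega⟩) (hc₀ ⟨1, by omega⟩))
      rw [h2 n _] at h3
      obtain ⟨c, h4, h5, h6⟩ := recolour G c₀ hij h3
      refine ⟨c, ?_, ?_⟩
      · intro i hi
        by_cases e1 : i = ⟨0, by omega⟩
        · rw [e1]; exact h4
        · have e2 : i = ⟨1, by omega⟩ := by
            apply Fin.ext
            have : (i : ℕ) ≠ 0 := fun h => e1 (Fin.ext h)
            show (i : ℕ) = 1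
            omega
          rw [e2]; exact h5
      · intro i hi hm
        refine hc₀ i (h6 i ?_ ?_ _ _ hm)
        · intro e
          rw [e] at hi
          simp at hi
        · intro e
          rw [e] at hi
          simp at hi
    | succ k hk ih =>
      intro hkq
      obtain ⟨c, hc1, hc2⟩ := ih (by omega)
      have hij : (⟨k, hkq⟩ : Fin q) ≠ ⟨k - 1, by omega⟩ := by
        rw [Ne, Fin.mk.injEq]
        omega
      have h3 := not_arrowsPair G c (i := ⟨k, hkq⟩) (j := ⟨k - 1, by omega⟩)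
        (hc2 ⟨k, hkq⟩ le_rfl) (hc1 ⟨k - 1, by omega⟩ (by show k - 1 < k; omega))
      have h4 : ¬ Arrows (pairGraph G c ⟨k, hkq⟩ ⟨k - 1, by omega⟩) H₁ 2 := fun h => h3 (hA n _ h)
      rw [h2 n _] at h4
      obtain ⟨c', h5, h6, h7⟩ := recolour G c hij h4
      refine ⟨c', ?_, ?_⟩
      · intro i hi
        by_cases e1 : i = ⟨k, hkq⟩
        · rw [e1]; exact h5
        · by_cases e2 : i = ⟨k - 1, by omega⟩
          · rw [e2]; exact h6
          · intro hm
            refine hc1 i ?_ (h7 i e1 e2 _ _ hm)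
            have : (i : ℕ) ≠ k := fun h => e1 (Fin.ext h)
            omega
      · intro i hi hm
        refine hc2 i (by omega) (h7 i ?_ ?_ _ _ hm)
        · intro e
          rw [e] at hi
          simp at hi
        · intro e
          rw [e] at hi
          simp only at hi
          omega
  obtain ⟨c, hc, _⟩ := key q hq le_rfl
  obtain ⟨i, hi⟩ := h c
  exact hc i i.2 hi

lemma mono_swap {V W : Type*} {H : SimpleGraph W} {G : SimpleGraph V} (c : Sym2 V → Fin 2)
    (i : Fin 2) : Mono G (fun e => 1 - c e) i H ↔ Mono G c (1 - i) H := by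
  have h : ∀ x i : Fin 2, 1 - x = i ↔ x = 1 - i := by decide
  constructor
  · rintro ⟨f, hf, hc⟩
    exact ⟨f, hf, fun u v huv => ⟨(hc u v huv).1, (h _ _).1 (hc u v huv).2⟩⟩
  · rintro ⟨f, hf, hc⟩
    exact ⟨f, hf, fun u v huv => ⟨(hc u v huv).1, (h _ _).2 (hc u v huv).2⟩⟩

lemma asym_symm {a b : ℕ} {H₁ : SimpleGraph (Fin a)} {H₂ : SimpleGraph (Fin b)}
    (h2 : REquiv 2 H₁ H₂) (hA : Asym H₁ H₂) : Asym H₂ H₁ := by
  intro n G h c
  rw [← h2 n G] at h
  rcases hA n G h (fun e => 1 - c e) with h1 | h1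
  · right
    rw [mono_swap] at h1
    exact h1
  · left
    rw [mono_swap] at h1
    exact h1

lemma equiv_of_asym {a b : ℕ} {H₁ : SimpleGraph (Fin a)} {H₂ : SimpleGraph (Fin b)}
    (h2 : REquiv 2 H₁ H₂) (hA : Asym H₁ H₂) {q : ℕ} (hq : 2 ≤ q) : REquiv q H₁ H₂ := fun n G =>
  ⟨one_direction (fun n G => (h2 n G).symm) (asym_symm h2 hA) hq n G, one_direction h2 hA hq n G⟩

lemma asym_of_contained {a b : ℕ} {H₁ : SimpleGraph (Fin a)} {H₂ : SimpleGraph (Fin b)}
    (h : H₁.IsContained H₂) (h2 : REquiv 2 H₁ H₂) : Asym H₁ H₂ := by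
  intro n G hG c
  rw [h2 n G] at hG
  obtain ⟨i, hi⟩ := hG c
  by_cases h0 : i = 0
  · left
    rw [h0] at hi
    exact hi.of_contained h
  · right
    have : ∀ x : Fin 2, x ≠ 0 → x = 1 := by decide
    rwa [this i h0] at hi

theorem result :
    -- 2-equivalent graphs, one of which is a subgraph of the other
    (∀ (a b : ℕ) (H₁ : SimpleGraph (Fin a)) (H₂ : SimpleGraph (Fin b)),
      H₁.IsContained H₂ ∨ H₂.IsContained H₁ → REquiv 2 H₁ H₂ → ∀ q, 2 ≤ q → REquiv q H₁ H₂) ∧
    -- 2-equivalent graphs satisfying the asymmetric condition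
    (∀ (a b : ℕ) (H₁ : SimpleGraph (Fin a)) (H₂ : SimpleGraph (Fin b)),
      REquiv 2 H₁ H₂ →
      (∀ (n : ℕ) (G : SimpleGraph (Fin n)), Arrows G H₁ 2 → ArrowsPair G H₁ H₂) →
      ∀ q, 2 ≤ q → REquiv q H₁ H₂) ∧
    -- graphs joined by a chain of such pairs
    (∀ A B : Σ n : ℕ, SimpleGraph (Fin n),
      Relation.EqvGen (fun A B : Σ n : ℕ, SimpleGraph (Fin n) => REquiv 2 A.2 B.2 ∧
        (A.2.IsContained B.2 ∨
          ∀ (n : ℕ) (G : SimpleGraph (Fin n)), Arrows G A.2 2 → ArrowsPair G A.2 B.2)) A B →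
      ∀ q, 2 ≤ q → REquiv q A.2 B.2) := by
  refine ⟨?_, ?_, ?_⟩
  · intro a b H₁ H₂ h h2 q hq
    rcases h with h | h
    · exact equiv_of_asym h2 (asym_of_contained h h2) hq
    · have h2' : REquiv 2 H₂ H₁ := fun n G => (h2 n G).symm
      exact fun n G => (equiv_of_asym h2' (asym_of_contained h h2') hq n G).symm
  · intro a b H₁ H₂ h2 hA q hq
    exact equiv_of_asym h2 hA hq
  · intro A B hAB q hq
    induction hAB with
    | rel A B h =>
      rcases h.2 with h' | h'
      · exact equiv_of_asym h.1 (asym_of_contained h' h.1) hq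
      · exact equiv_of_asym h.1 h' hq
    | refl A => exact fun n G => Iff.rfl
    | symm A B _ ih => exact fun n G => (ih n G).symm
    | trans A B C _ _ ih1 ih2 => exact fun n G => (ih1 n G).trans (ih2 n G)

end Pool.Agent.Results.MP_781e3b_co.Comparable
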